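import Mathlib

set_option autoImplicit false

namespace Pool.Agent.Lib.MP_98d116_co

/-- The grid `{1, …, n} × {1, …, n}`. -/
noncomputable def grid (n : ℕ) : Finset (ℤ × ℤ) := Finset.Icc (1 : ℤ) n ×ˢ Finset.Icc (1 : ℤ) n

/-- `A` contains three translated triangles. -/
def ContainsThree (A : Finset (ℤ × ℤ)) : Prop :=
  ∃ X : Finset (ℤ × ℤ), X.card = 3 ∧ ∃ k₁ k₂ k₃ : ℤ × ℤ, k₁ ≠ k₂ ∧ k₁ ≠ k₃ ∧ k₂ ≠ k₃ ∧
    ∀ x ∈ X, x + k₁ ∈ A ∧ x + k₂ ∈ A ∧ x + k₃ ∈ A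

/-- The largest size of a subset of the grid avoiding three translated triangles. -/
noncomputable def F (n : ℕ) : ℕ :=
  sSup {m : ℕ | ∃ A : Finset (ℤ × ℤ), A ⊆ grid n ∧ ¬ ContainsThree A ∧ A.card = m}

end Pool.Agent.Lib.MP_98d116_co
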