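import Pool.Agent.Lib.MP_98d116_co.Defs

set_option autoImplicit false
set_option linter.unusedSectionVars false

namespace Pool.Agent.Lib.MP_98d116_co

section Field

variable {p : ℕ} [Fact p.Prime] {K : Type} [Field K] [Algebra (ZMod p) K]

/-- Elements whose relative norm lies in the prime field. -/
def Ov (p : ℕ) {K : Type} [Field K] (x : K) : Prop :=
  x ≠ 0 ∧ (x * x ^ (p ^ 2)) ^ p = x * x ^ (p ^ 2)

theorem Ov.mul {x y : K} (hx : Ov p x) (hy : Ov p y) : Ov p (x * y) := by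
  refine ⟨mul_ne_zero hx.1 hy.1, ?_⟩
  have : x * y * (x * y) ^ (p ^ 2) = (x * x ^ (p ^ 2)) * (y * y ^ (p ^ 2)) := by ring
  rw [this, mul_pow, hx.2, hy.2]

theorem Ov.inv {x : K} (hx : Ov p x) : Ov p x⁻¹ := by
  refine ⟨inv_ne_zero hx.1, ?_⟩
  have : x⁻¹ * x⁻¹ ^ (p ^ 2) = (x * x ^ (p ^ 2))⁻¹ := by rw [inv_pow, mul_inv]
  rw [this, inv_pow, hx.2]

theorem Ov.scalar {c : ZMod p} (hc : c ≠ 0) : Ov p (algebraMap (ZMod p) K c) := by
  refine ⟨by simpa using hc, ?_⟩
  rw [← map_pow, ← map_mul, ← map_pow, ZMod.pow_card]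

theorem ovoid {w : K} (h1 : Ov p w) (h2 : Ov p (1 + w)) :
    ∃ c : ZMod p, w = algebraMap (ZMod p) K c := by
  have hch : CharP K p := (Algebra.charP_iff (ZMod p) K p).1 inferInstance
  have e1 := h1.2
  have e2 := h2.2
  rw [add_pow_char_pow, one_pow, mul_pow, add_pow_char, add_pow_char, one_pow] at e2
  rw [mul_pow] at e1
  have e3 : (w ^ p - w) * (w ^ p - w ^ (p ^ 2)) = 0 := by
    linear_combination w ^ p * e2 - (w ^ p + 1) * e1
  have e4 : w ^ p = w := by
    rcases mul_eq_zero.1 e3 with h | h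
    · exact sub_eq_zero.1 h
    · have h3 : (w ^ p) ^ p = w ^ p := by
        rw [← pow_mul, ← sq]
        exact (sub_eq_zero.1 h).symm
      exact frobenius_inj K p h3
  have e5 := (Subfield.mem_bot_iff_pow_eq_self K p).2 e4
  have e6 : (⊥ : Subfield K) ≤ (algebraMap (ZMod p) K).fieldRange := bot_le
  obtain ⟨c, hc⟩ := e6 e5
  exact ⟨c, hc.symm⟩

theorem indep3 (l : K →ₗ[ZMod p] ZMod p) {x y z t : K} (hx : Ov p x) (hy : Ov p y) (hz : Ov p z)
    (hxy : x ≠ y) (hxz : x ≠ z) (hyz : y ≠ z)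
    (h1 : l (x * t) = 1) (h2 : l (y * t) = 1) (h3 : l (z * t) = 1) :
    LinearIndependent (ZMod p) ![x, y, z] := by
  rw [Fintype.linearIndependent_iff]
  intro g hg
  simp only [Fin.sum_univ_three, Matrix.cons_val_zero, Matrix.cons_val_one, Matrix.cons_val] at hg
  have hs : g 0 + g 1 + g 2 = 0 := by
    have := congrArg (fun u => l (u * t)) hg
    simpa [add_mul, h1, h2, h3] using this
  have two : ∀ (a b : ZMod p) (u v : K), u ≠ v → a + b = 0 → a • u + b • v = 0 → a = 0 ∧ b = 0 := by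
    intro a b u v huv hab h
    have hb : b = -a := by linear_combination hab
    subst hb
    rw [neg_smul, ← sub_eq_add_neg, ← smul_sub, smul_eq_zero] at h
    rcases h with h | h
    · simp [h]
    · exact absurd (sub_eq_zero.1 h) huv
  have key : g 0 = 0 ∧ g 1 = 0 ∧ g 2 = 0 := by
    by_cases h0 : g 0 = 0
    · rw [h0] at hg hs
      exact ⟨h0, two _ _ _ _ hyz (by simpa using hs) (by simpa using hg)⟩
    by_cases h1' : g 1 = 0
    · rw [h1'] at hg hs
      exact absurd (two _ _ _ _ hxz (by simpa using hs) (by simpa using hg)).1 h0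
    by_cases h2' : g 2 = 0
    · rw [h2'] at hg hs
      exact absurd (two _ _ _ _ hxy (by simpa using hs) (by simpa using hg)).1 h0
    exfalso
    simp only [Algebra.smul_def] at hg
    have ha := Ov.scalar (K := K) h0
    have hb := Ov.scalar (K := K) h1'
    have hc := Ov.scalar (K := K) (neg_ne_zero.2 h2')
    have hw := (hb.mul hy).mul (ha.mul hx).inv
    have hw' := (hc.mul hz).mul (ha.mul hx).inv
    have hne := (ha.mul hx).1
    have e : algebraMap (ZMod p) K (-g 2) * z * (algebraMap (ZMod p) K (g 0) * x)⁻¹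
        = 1 + algebraMap (ZMod p) K (g 1) * y * (algebraMap (ZMod p) K (g 0) * x)⁻¹ := by
      rw [map_neg]
      field_simp
      have := ha.1
      have := hx.1
      field_simp
      linear_combination -hg
    rw [e] at hw'
    obtain ⟨c, hc⟩ := ovoid hw hw'
    rw [mul_inv_eq_iff_eq_mul₀ hne] at hc
    have e2 : (g 1) • y + (-(c * g 0)) • x = 0 := by
      simp only [Algebra.smul_def, map_neg, map_mul]
      linear_combination hc
    have e3 : g 1 + -(c * g 0) = 0 := by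
      have := congrArg (fun u => l (u * t)) e2
      simp only [add_mul, smul_mul_assoc, map_add, map_smul, h1, h2, zero_mul, map_zero,
        smul_eq_mul, mul_one] at this
      exact this
    exact h1' (two _ _ _ _ hxy.symm e3 e2).1
  intro i
  fin_cases i
  · exact key.1
  · exact key.2.1
  · exact key.2.2

theorem no_K33 (hK : Module.finrank (ZMod p) K = 4) (l : K →ₗ[ZMod p] ZMod p)
    {x₁ x₂ x₃ y₁ y₂ y₃ : K} (hx₁ : Ov p x₁) (hx₂ : Ov p x₂) (hx₃ : Ov p x₃)
    (hy₁ : Ov p y₁) (hy₂ : Ov p y₂) (hy₃ : Ov p y₃)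
    (a₁ : x₁ ≠ x₂) (a₂ : x₁ ≠ x₃) (a₃ : x₂ ≠ x₃) (b₁ : y₁ ≠ y₂) (b₂ : y₁ ≠ y₃) (b₃ : y₂ ≠ y₃)
    (h : ∀ x ∈ [x₁, x₂, x₃], ∀ y ∈ [y₁, y₂, y₃], l (x * y) = 1) : False := by
  have : Module.Finite (ZMod p) K := Module.finite_of_finrank_pos (by omega)
  simp only [List.mem_cons, List.not_mem_nil, or_false, forall_eq_or_imp, forall_eq] at h
  obtain ⟨⟨h11, h12, h13⟩, ⟨h21, h22, h23⟩, ⟨h31, h32, h33⟩⟩ := h
  have hX := indep3 l hx₁ hx₂ hx₃ a₁ a₂ a₃ h11 h21 h31
  have hY := indep3 l (t := x₁) hy₁ hy₂ hy₃ b₁ b₂ b₃ (by rwa [mul_comm]) (by rwa [mul_comm])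
    (by rwa [mul_comm])
  let U := Submodule.span (ZMod p) (Set.range ![x₁, x₂, x₃])
  have hU : Module.finrank (ZMod p) U = 3 := by
    rw [finrank_span_eq_card hX]; simp
  have hann := Subspace.finrank_add_finrank_dualAnnihilator_eq U
  rw [hU, hK] at hann
  let φ : K → Module.Dual (ZMod p) K := fun u => l ∘ₗ LinearMap.mulRight (ZMod p) u
  have hmem : ∀ u : K, l (x₁ * u) = 0 → l (x₂ * u) = 0 → l (x₃ * u) = 0 →
      φ u ∈ U.dualAnnihilator := by
    intro u e1 e2 e3
    rw [Submodule.mem_dualAnnihilator]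
    intro w hw
    have : U ≤ LinearMap.ker (φ u) := by
      rw [Submodule.span_le]
      rintro _ ⟨i, rfl⟩
      fin_cases i
      · exact e1
      · exact e2
      · exact e3
    exact this hw
  have m1 := hmem (y₁ - y₂) (by simp [mul_sub, h11, h12]) (by simp [mul_sub, h21, h22])
    (by simp [mul_sub, h31, h32])
  have m2 := hmem (y₁ - y₃) (by simp [mul_sub, h11, h13]) (by simp [mul_sub, h21, h23])
    (by simp [mul_sub, h31, h33])
  have hli : LinearIndependent (ZMod p)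
      ![(⟨_, m1⟩ : U.dualAnnihilator), (⟨_, m2⟩ : U.dualAnnihilator)] := by
    rw [LinearIndependent.pair_iff]
    intro s t hst
    have h0 : ∀ w : K, l (w * (s • (y₁ - y₂) + t • (y₁ - y₃))) = 0 := by
      intro w
      have := congrArg (fun f : U.dualAnnihilator => (f : Module.Dual (ZMod p) K) w) hst
      simpa [φ, mul_add] using this
    have h1 : s • (y₁ - y₂) + t • (y₁ - y₃) = 0 := by
      by_contra hne
      have := h0 (x₁ * y₁ * (s • (y₁ - y₂) + t • (y₁ - y₃))⁻¹)
      rw [inv_mul_cancel_right₀ hne, h11] at this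
      exact one_ne_zero this
    have h2 := Fintype.linearIndependent_iff.1 hY ![s + t, -s, -t] (by
      simp only [Fin.sum_univ_three, Matrix.cons_val_zero, Matrix.cons_val_one, Matrix.cons_val]
      rw [← h1]
      module)
    exact ⟨by simpa using h2 1, by simpa using h2 2⟩
  have := hli.fintype_card_le_finrank
  simp at this
  omega

end Field

theorem exists_good (p : ℕ) [hp : Fact p.Prime] :
    ∃ (g : GaloisField p 4) (l : GaloisField p 4 →ₗ[ZMod p] ZMod p),
      orderOf g = (p ^ 2 + 1) * (p - 1) ∧ Ov p g ∧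
      (p ^ 2 + 1) * (p - 1) ≤
        p * ((Finset.range ((p ^ 2 + 1) * (p - 1))).filter (fun i => l (g ^ i) = 1)).card := by
  classical
  set K := GaloisField p 4
  have hp1 := hp.out.one_lt
  have hcard : Nat.card K = p ^ 4 := GaloisField.card p 4 (by norm_num)
  have hrank : Module.finrank (ZMod p) K = 4 := GaloisField.finrank p (by norm_num)
  obtain ⟨γ, hγ⟩ := IsCyclic.exists_ofOrder_eq_natCard (α := Kˣ)
  rw [Nat.card_units, hcard] at hγ
  obtain ⟨r, rfl⟩ : ∃ r, p = r + 1 := ⟨p - 1, by omega⟩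
  have hfac : (r + 1) ^ 4 - 1 = ((r + 1) ^ 2 + 1) * r * (r + 2) := by
    have : (r + 1) ^ 4 = ((r + 1) ^ 2 + 1) * r * (r + 2) + 1 := by ring
    omega
  rw [Nat.add_sub_cancel]
  set M := ((r + 1) ^ 2 + 1) * r with hM
  have hord : orderOf (((γ ^ (r + 2) : Kˣ) : K)) = M := by
    rw [orderOf_units, orderOf_pow_of_dvd (by omega) (by rw [hγ, hfac]; exact Dvd.intro_left _ rfl),
      hγ, hfac, Nat.mul_div_cancel _ (by omega)]
  set g : K := ((γ ^ (r + 2) : Kˣ) : K) with hg
  have hg0 : g ≠ 0 := Units.ne_zero _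
  have hOv : Ov (r + 1) g := by
    refine ⟨hg0, ?_⟩
    have h1 : g ^ M = 1 := by rw [← hord]; exact pow_orderOf_eq_one g
    rw [← pow_succ', pow_succ, ← pow_mul, h1, one_mul]
  obtain ⟨l₀, hl₀⟩ := Module.Projective.exists_dual_eq_one (ZMod (r + 1)) (one_ne_zero (α := K))
  let _ : Fintype K := Fintype.ofFinite K
  have hsurj : Function.Surjective l₀ := fun c => ⟨c • 1, by simp [hl₀]⟩
  have hfib : (Finset.univ.filter (fun c : K => l₀ c = 1)).card = (r + 1) ^ 3 := by
    have h1 : ∀ v : ZMod (r + 1), (Finset.univ.filter (fun c : K => l₀ c = v)).card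
        = (Finset.univ.filter (fun c : K => l₀ c = 1)).card := fun v =>
      AddMonoidHom.card_fiber_eq_of_mem_range l₀ (hsurj v) (hsurj 1)
    have h2 := Finset.card_eq_sum_card_fiberwise (s := (Finset.univ : Finset K))
      (t := (Finset.univ : Finset (ZMod (r + 1)))) (f := l₀) (fun _ _ => Finset.mem_univ _)
    simp only [h1, Finset.sum_const, Finset.card_univ, ZMod.card, smul_eq_mul] at h2
    rw [← Nat.card_eq_fintype_card, hcard, pow_succ'] at h2
    exact (Nat.eq_of_mul_eq_mul_left (by omega) h2).symm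
  have hsum : ∑ c : K, ((Finset.range M).filter (fun i => l₀ (c * g ^ i) = 1)).card
      = M * (r + 1) ^ 3 := by
    simp_rw [Finset.card_filter]
    rw [Finset.sum_comm]
    have : ∀ i ∈ Finset.range M, (∑ c : K, if l₀ (c * g ^ i) = 1 then 1 else 0) = (r + 1) ^ 3 := by
      intro i _
      rw [← hfib, Finset.card_filter]
      exact Equiv.sum_comp (Equiv.mulRight₀ (g ^ i) (pow_ne_zero i hg0))
        (fun c => if l₀ c = 1 then 1 else 0)
    rw [Finset.sum_congr rfl this]
    simp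
  obtain ⟨c, -, hc⟩ := Finset.exists_le_of_sum_le (s := (Finset.univ : Finset K))
    Finset.univ_nonempty (f := fun _ => M)
    (g := fun c => (r + 1) * ((Finset.range M).filter (fun i => l₀ (c * g ^ i) = 1)).card) (by
      rw [Finset.sum_const, ← Finset.mul_sum, hsum, Finset.card_univ, ← Nat.card_eq_fintype_card,
        hcard, smul_eq_mul]
      apply le_of_eq
      ring)
  exact ⟨g, l₀ ∘ₗ LinearMap.mulLeft _ c, hord, hOv, hc⟩

theorem Ov.zpow {p : ℕ} {K : Type} [Field K] {g : K} (h : Ov p g) (i : ℤ) : Ov p (g ^ i) := by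
  refine ⟨zpow_ne_zero i h.1, ?_⟩
  have e : g ^ i * (g ^ i) ^ (p ^ 2) = (g * g ^ (p ^ 2)) ^ i := by
    rw [mul_zpow, ← zpow_natCast (g ^ i), ← zpow_natCast g, ← zpow_mul, ← zpow_mul, mul_comm i]
  rw [e, ← zpow_natCast, ← zpow_mul, mul_comm i, zpow_mul, zpow_natCast, h.2]

theorem lower (p n : ℕ) (hp : p.Prime) (hn : p ^ 3 ≤ n ^ 2) :
    ∃ A : Finset (ℤ × ℤ), A ⊆ grid n ∧ ¬ ContainsThree A ∧ p ^ 2 ≤ A.card + p := by
  classical
  have := Fact.mk hp
  obtain ⟨g, l, hord, hOv, hcard⟩ := exists_good p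
  set M := (p ^ 2 + 1) * (p - 1) with hM
  set S := (Finset.range M).filter (fun i => l (g ^ i) = 1) with hS
  have hp1 := hp.one_lt
  have hMn : M ≤ n ^ 2 := by
    refine le_trans ?_ hn
    obtain ⟨r, rfl⟩ : ∃ r, p = r + 1 := ⟨p - 1, by omega⟩
    rw [hM, Nat.add_sub_cancel]
    nlinarith [Nat.zero_le (r ^ 2)]
  have hn0 : 0 < n := by
    rcases Nat.eq_zero_or_pos n with rfl | h
    · have : 0 < p ^ 3 := by positivity
      simp at hn
      omega
    · exact h
  let e : ℕ → ℤ × ℤ := fun i => (((i % n : ℕ) : ℤ) + 1, ((i / n : ℕ) : ℤ) + 1)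
  let ψ : ℤ × ℤ → ℤ := fun x => x.1 + n * x.2
  have hψ : ∀ i, ψ (e i) = i + (1 + n) := by
    intro i
    have := Nat.mod_add_div i n
    have h2 : ((i % n : ℕ) : ℤ) + n * ((i / n : ℕ) : ℤ) = i := by exact_mod_cast this
    simp only [ψ, e]
    linear_combination h2
  have he : Function.Injective e := by
    intro i j h
    have := congrArg ψ h
    rw [hψ, hψ] at this
    omega
  refine ⟨S.image e, ?_, ?_, ?_⟩
  · intro x hx
    obtain ⟨i, hi, rfl⟩ := Finset.mem_image.1 hx
    have h1 : i < n * n := by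
      have := Finset.mem_range.1 (Finset.mem_filter.1 hi).1
      nlinarith
    have h2 := Nat.mod_lt i hn0
    have h3 : i / n < n := Nat.div_lt_of_lt_mul h1
    simp only [grid, e, Finset.mem_product, Finset.mem_Icc]
    generalize i % n = u at *
    generalize i / n = v at *
    omega
  · rintro ⟨X, hX, k₁, k₂, k₃, h12, h13, h23, hA⟩
    obtain ⟨a, b, c, hab, hac, hbc, rfl⟩ := Finset.card_eq_three.1 hX
    have hg0 := hOv.1
    have key : ∀ x k : ℤ × ℤ, x + k ∈ S.image e → ∃ i, i < M ∧ x + k = e i ∧ l (g ^ i) = 1 ∧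
        g ^ (ψ x) * g ^ (ψ k - (1 + n)) = g ^ i := by
      intro x k h
      obtain ⟨i, hi, hie⟩ := Finset.mem_image.1 h
      rw [hS, Finset.mem_filter, Finset.mem_range] at hi
      refine ⟨i, hi.1, hie.symm, hi.2, ?_⟩
      rw [← zpow_add₀ hg0, ← zpow_natCast]
      congr 1
      have := hψ i
      rw [hie] at this
      simp only [ψ, Prod.fst_add, Prod.snd_add] at this ⊢
      linear_combination this
    have inj : ∀ x k x' k' : ℤ × ℤ, x + k ∈ S.image e → x' + k' ∈ S.image e →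
        g ^ (ψ x) * g ^ (ψ k - (1 + n)) = g ^ (ψ x') * g ^ (ψ k' - (1 + n)) → x + k = x' + k' := by
      intro x k x' k' h h' heq
      obtain ⟨i, hi, e1, -, e2⟩ := key x k h
      obtain ⟨j, hj, e3, -, e4⟩ := key x' k' h'
      rw [e2, e4] at heq
      have := pow_injOn_Iio_orderOf (x := g) (by rwa [Set.mem_Iio, hord])
        (by rwa [Set.mem_Iio, hord]) heq
      rw [e1, e3, this]
    have val : ∀ x k : ℤ × ℤ, x + k ∈ S.image e → l (g ^ (ψ x) * g ^ (ψ k - (1 + n))) = 1 := by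
      intro x k h
      obtain ⟨i, -, -, e1, e2⟩ := key x k h
      rw [e2, e1]
    have ha := hA a (by simp)
    have hb := hA b (by simp)
    have hc := hA c (by simp)
    refine no_K33 (GaloisField.finrank p (by norm_num)) l (hOv.zpow (ψ a)) (hOv.zpow (ψ b))
      (hOv.zpow (ψ c)) (hOv.zpow (ψ k₁ - (1 + n))) (hOv.zpow (ψ k₂ - (1 + n)))
      (hOv.zpow (ψ k₃ - (1 + n))) ?_ ?_ ?_ ?_ ?_ ?_ ?_
    · exact fun h => hab (add_right_cancel (inj a k₁ b k₁ ha.1 hb.1 (by rw [h])))
    · exact fun h => hac (add_right_cancel (inj a k₁ c k₁ ha.1 hc.1 (by rw [h])))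
    · exact fun h => hbc (add_right_cancel (inj b k₁ c k₁ hb.1 hc.1 (by rw [h])))
    · exact fun h => h12 (add_left_cancel (inj a k₁ a k₂ ha.1 ha.2.1 (by rw [h])))
    · exact fun h => h13 (add_left_cancel (inj a k₁ a k₃ ha.1 ha.2.2 (by rw [h])))
    · exact fun h => h23 (add_left_cancel (inj a k₂ a k₃ ha.2.1 ha.2.2 (by rw [h])))
    · simp only [List.mem_cons, List.not_mem_nil, or_false, forall_eq_or_imp, forall_eq]
      exact ⟨⟨val _ _ ha.1, val _ _ ha.2.1, val _ _ ha.2.2⟩,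
        ⟨val _ _ hb.1, val _ _ hb.2.1, val _ _ hb.2.2⟩,
        ⟨val _ _ hc.1, val _ _ hc.2.1, val _ _ hc.2.2⟩⟩
  · rw [Finset.card_image_of_injective _ he]
    obtain ⟨r, rfl⟩ : ∃ r, p = r + 1 := ⟨p - 1, by omega⟩
    rw [hM, Nat.add_sub_cancel] at hcard
    by_contra hcon
    have h1 : S.card + 1 ≤ (r + 1) * r := by nlinarith
    nlinarith

end Pool.Agent.Lib.MP_98d116_co
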