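import Pool.Agent.Lib.MP_98d116_co.Upper
import Pool.Agent.Lib.MP_98d116_co.Lower
import Pool.Agent.Lib.helper57.PNT

set_option autoImplicit false

namespace Pool.Agent.Lib.MP_98d116_co

open Filter Topology

theorem bdd (n : ℕ) :
    BddAbove {m : ℕ | ∃ A : Finset (ℤ × ℤ), A ⊆ grid n ∧ ¬ ContainsThree A ∧ A.card = m} := by
  refine ⟨(grid n).card, ?_⟩
  rintro m ⟨A, hA, -, rfl⟩
  exact Finset.card_le_card hA

theorem F_spec (n : ℕ) :
    ∃ A : Finset (ℤ × ℤ), A ⊆ grid n ∧ ¬ ContainsThree A ∧ A.card = F n := by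
  refine Nat.sSup_mem (s := {m : ℕ | ∃ A : Finset (ℤ × ℤ),
    A ⊆ grid n ∧ ¬ ContainsThree A ∧ A.card = m}) ⟨0, ∅, by simp, ?_, rfl⟩ (bdd n)
  rintro ⟨X, hX, k₁, k₂, k₃, -, -, -, h⟩
  obtain ⟨x, hx⟩ := Finset.card_pos.1 (by omega : 0 < X.card)
  simpa using (h x hx).1

theorem le_F {n : ℕ} {A : Finset (ℤ × ℤ)} (h1 : A ⊆ grid n) (h2 : ¬ ContainsThree A) :
    A.card ≤ F n := le_csSup (bdd n) ⟨A, h1, h2, rfl⟩

theorem main : Tendsto (fun n : ℕ => (F n : ℝ) / (n : ℝ) ^ (4 / 3 : ℝ)) atTop (𝓝 1) := by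
  let y : ℕ → ℝ := fun n => (n : ℝ) ^ (2 / 3 : ℝ)
  have hy : Tendsto y atTop atTop :=
    (tendsto_rpow_atTop (by norm_num)).comp tendsto_natCast_atTop_atTop
  have hy2 : ∀ n : ℕ, (n : ℝ) ^ (4 / 3 : ℝ) = y n ^ 2 := fun n => by
    simp only [y]
    rw [← Real.rpow_natCast, ← Real.rpow_mul (Nat.cast_nonneg n)]
    norm_num
  have hy3 : ∀ n : ℕ, (n : ℝ) ^ 2 = y n ^ 3 := fun n => by
    simp only [y]
    rw [← Real.rpow_natCast _ 3, ← Real.rpow_mul (Nat.cast_nonneg n), ← Real.rpow_natCast]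
    norm_num
  have hinv : Tendsto (fun n => (y n)⁻¹) atTop (𝓝 0) := hy.inv_tendsto_atTop
  rw [tendsto_order]
  constructor
  · intro b hb
    have hcont : Tendsto (fun c : ℝ => (c⁻¹) ^ 2) (𝓝[>] 1) (𝓝 1) := by
      have : ContinuousAt (fun c : ℝ => (c⁻¹) ^ 2) 1 := by
        fun_prop (disch := norm_num)
      have := this.tendsto
      simp only [inv_one, one_pow] at this
      exact this.mono_left nhdsWithin_le_nhds
    obtain ⟨c, hc1, hc⟩ := ((hcont.eventually (lt_mem_nhds hb)).and self_mem_nhdsWithin).exists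
    have hc : 1 < c := hc
    have h1 := (hy.atTop_div_const (by linarith : 0 < c)).eventually
      (Pool.Agent.Lib.helper57.exists_prime_short hc)
    have h2 : Tendsto (fun n => c⁻¹ ^ 2 - (y n)⁻¹) atTop (𝓝 (c⁻¹ ^ 2 - 0)) :=
      tendsto_const_nhds.sub hinv
    rw [sub_zero] at h2
    filter_upwards [h1, h2.eventually (lt_mem_nhds hc1), hy.eventually_gt_atTop 0]
      with n hn hn2 hy0
    obtain ⟨p, hp, hp1, hp2⟩ := hn
    have hc0 : 0 < c := by linarith
    rw [mul_div_cancel₀ _ hc0.ne'] at hp2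
    have h3 : p ^ 3 ≤ n ^ 2 := by
      have : (p : ℝ) ^ 3 ≤ (n : ℝ) ^ 2 := by
        rw [hy3]
        gcongr
      exact_mod_cast this
    obtain ⟨A, hA1, hA2, hA3⟩ := lower p n hp h3
    have h4 : (p : ℝ) ^ 2 ≤ F n + p := by
      have := le_F hA1 hA2
      have h5 : p ^ 2 ≤ F n + p := by omega
      exact_mod_cast h5
    refine lt_of_lt_of_le hn2 ?_
    rw [hy2, le_div_iff₀ (by positivity)]
    have h5 : (y n / c) ^ 2 ≤ (p : ℝ) ^ 2 := by gcongr
    have h6 : (c⁻¹ ^ 2 - (y n)⁻¹) * y n ^ 2 = (y n / c) ^ 2 - y n := by field_simp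
    rw [h6]
    linarith
  · intro b hb
    have hcont : Tendsto (fun c : ℝ => c ^ 2) (𝓝[>] 1) (𝓝 1) := by
      have : ContinuousAt (fun c : ℝ => c ^ 2) 1 := by fun_prop
      have := this.tendsto
      simp only [one_pow] at this
      exact this.mono_left nhdsWithin_le_nhds
    obtain ⟨c, hc1, hc⟩ := ((hcont.eventually (gt_mem_nhds hb)).and self_mem_nhdsWithin).exists
    have hc : 1 < c := hc
    obtain ⟨m, hm⟩ := exists_nat_gt (2 / (c - 1))
    have hm0 : (0 : ℝ) < m := lt_trans (by have : 0 < c - 1 := by linarith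
                                           positivity) hm
    have hm0' : 0 < m := by exact_mod_cast hm0
    have h2 : Tendsto (fun n => (y n)⁻¹ ^ 2 + c ^ 2 + 2 * c ^ 2 * m ^ 2 * (y n)⁻¹) atTop
        (𝓝 (0 ^ 2 + c ^ 2 + 2 * c ^ 2 * m ^ 2 * 0)) :=
      ((hinv.pow 2).add tendsto_const_nhds).add (hinv.const_mul _)
    simp only [mul_zero, add_zero, ne_eq, OfNat.ofNat_ne_zero, not_false_eq_true, zero_pow,
      zero_add] at h2
    filter_upwards [h2.eventually (gt_mem_nhds hc1), hy.eventually_gt_atTop 0,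
      eventually_ge_atTop m] with n hn2 hy0 hnm
    rw [hy2, div_lt_iff₀ (by positivity)]
    by_cases hsmall : (F n : ℝ) < y n ^ 2
    · have : y n ^ 2 ≤ b * y n ^ 2 := le_mul_of_one_le_left (by positivity) hb.le
      linarith
    push Not at hsmall
    obtain ⟨A, hA1, hA2, hA3⟩ := F_spec n
    have hpos : 0 < A.card := by
      rw [hA3]
      have : (0 : ℝ) < F n := lt_of_lt_of_le (by positivity) hsmall
      exact_mod_cast this
    have h3 := upper n m (n / m + 1) hm0' (by positivity)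
      (by have := Nat.lt_mul_div_succ n hm0'; omega) A hA1 hA2 hpos
    rw [hA3] at h3
    have hnm' : (m : ℝ) ≤ n := by exact_mod_cast hnm
    have h4 : (n : ℝ) + ((n / m + 1 : ℕ) : ℝ) ≤ c * n := by
      have e1 : ((n / m : ℕ) : ℝ) ≤ n / m := Nat.cast_div_le
      have e2 : (1 : ℝ) ≤ n / m := by rw [le_div_iff₀ hm0]; linarith
      have e3 : 2 / (m : ℝ) ≤ c - 1 := by
        rw [div_lt_iff₀ (by linarith)] at hm
        rw [div_le_iff₀ hm0]
        linarith
      have e4 : 2 * ((n : ℝ) / m) ≤ (c - 1) * n := by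
        calc 2 * ((n : ℝ) / m) = 2 / m * n := by ring
          _ ≤ (c - 1) * n := by gcongr
      push_cast
      linarith
    have h5 : ((n : ℝ) + ((n / m + 1 : ℕ) : ℝ)) ^ (4 / 3 : ℝ) ≤ c ^ 2 * y n ^ 2 := by
      calc _ ≤ (c * n) ^ (4 / 3 : ℝ) := by gcongr
        _ = c ^ (4 / 3 : ℝ) * (n : ℝ) ^ (4 / 3 : ℝ) :=
            Real.mul_rpow (by linarith) (Nat.cast_nonneg n)
        _ ≤ c ^ 2 * y n ^ 2 := by
            rw [hy2]
            gcongr
            rw [← Real.rpow_natCast]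
            exact Real.rpow_le_rpow_of_exponent_le hc.le (by norm_num)
    have h6 : 2 * ((n : ℝ) + ((n / m + 1 : ℕ) : ℝ)) ^ 2 * m ^ 2 / F n
        ≤ 2 * c ^ 2 * m ^ 2 * y n := by
      calc _ ≤ 2 * (c * n) ^ 2 * m ^ 2 / y n ^ 2 := by gcongr
        _ = 2 * c ^ 2 * m ^ 2 * y n := by
            rw [mul_pow, hy3]
            field_simp
    have h7 : ((y n)⁻¹ ^ 2 + c ^ 2 + 2 * c ^ 2 * m ^ 2 * (y n)⁻¹) * y n ^ 2
        = 1 + c ^ 2 * y n ^ 2 + 2 * c ^ 2 * m ^ 2 * y n := by field_simp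
    have h8 := mul_lt_mul_of_pos_right hn2 (show 0 < y n ^ 2 by positivity)
    linarith

end Pool.Agent.Lib.MP_98d116_co
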